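import Pool.Agent.N266.TI.Stm

/-!
# Cut-off functions (project TI of helper266; helper169)
-/

set_option autoImplicit false

namespace Pool.Agent.N169.TI

open MeasureTheory Metric Set
open scoped ENNReal Pointwise ContDiff Convolution
open Pool.Agent.N266.TI

/-- the function to be mollified -/
noncomputable def f0 {n : ℕ} (Γ : Set (E n)) (s : ℝ) (x : E n) : ℝ :=
  max 0 (min 1 (2 / s * (7 / 4 * s - infDist x Γ)))

theorem f0_nonneg {n : ℕ} (Γ : Set (E n)) (s : ℝ) (x : E n) : 0 ≤ f0 Γ s x := le_max_left _ _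

theorem f0_le {n : ℕ} (Γ : Set (E n)) (s : ℝ) (x : E n) : f0 Γ s x ≤ 1 :=
  max_le zero_le_one (min_le_left _ _)

theorem f0_lip {n : ℕ} (Γ : Set (E n)) {s : ℝ} (hs : 0 < s) (x y : E n) :
    |f0 Γ s x - f0 Γ s y| ≤ 2 / s * ‖x - y‖ := by
  have h1 : |infDist x Γ - infDist y Γ| ≤ ‖x - y‖ := by
    have := (lipschitz_infDist_pt Γ).dist_le_mul x y
    rw [Real.dist_eq, dist_eq_norm] at this
    simpa using this
  have h2 : |f0 Γ s x - f0 Γ s y| ≤
      |2 / s * (7 / 4 * s - infDist x Γ) - 2 / s * (7 / 4 * s - infDist y Γ)| := by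
    unfold f0
    refine (abs_max_sub_max_le_max _ _ _ _).trans ?_
    rw [sub_self, abs_zero]
    refine max_le (abs_nonneg _) ?_
    refine (abs_min_sub_min_le_max _ _ _ _).trans ?_
    rw [sub_self, abs_zero]
    exact max_le (abs_nonneg _) le_rfl
  refine h2.trans ?_
  have h3 : 2 / s * (7 / 4 * s - infDist x Γ) - 2 / s * (7 / 4 * s - infDist y Γ) =
      -(2 / s * (infDist x Γ - infDist y Γ)) := by ring
  rw [h3, abs_neg, abs_mul, abs_of_pos (by positivity : 0 < 2 / s)]
  exact mul_le_mul_of_nonneg_left h1 (by positivity)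

theorem f0_cont {n : ℕ} (Γ : Set (E n)) (s : ℝ) : Continuous (f0 Γ s) := by
  unfold f0
  exact continuous_const.max (continuous_const.min
    (continuous_const.mul (continuous_const.sub (continuous_infDist_pt Γ))))

theorem f0_one {n : ℕ} (Γ : Set (E n)) {s : ℝ} (hs : 0 < s) {x : E n}
    (h : infDist x Γ ≤ 5 / 4 * s) : f0 Γ s x = 1 := by
  unfold f0
  have h1 : 1 ≤ 2 / s * (7 / 4 * s - infDist x Γ) := by
    have h2 : 2 / s * (1 / 2 * s) ≤ 2 / s * (7 / 4 * s - infDist x Γ) :=
      mul_le_mul_of_nonneg_left (by linarith) (by positivity)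
    have h3 : 2 / s * (1 / 2 * s) = 1 := by field_simp
    rwa [h3] at h2
  rw [min_eq_left h1, max_eq_right zero_le_one]

theorem f0_zero {n : ℕ} (Γ : Set (E n)) {s : ℝ} (hs : 0 < s) {x : E n}
    (h : 7 / 4 * s ≤ infDist x Γ) : f0 Γ s x = 0 := by
  unfold f0
  have h1 : 2 / s * (7 / 4 * s - infDist x Γ) ≤ 0 :=
    mul_nonpos_of_nonneg_of_nonpos (by positivity) (by linarith)
  exact max_eq_left ((min_le_right _ _).trans h1)

theorem cut : CUT := by
  intro n
  refine ⟨2 * (n + 1), by positivity, ?_⟩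
  intro Γ s hΓ hΓn hs
  let φ : ContDiffBump (0 : E n) := ⟨s / 8, s / 4, by positivity, by linarith⟩
  have hφ : φ.rOut = s / 4 := rfl
  obtain ⟨χ, hχ⟩ : ∃ χ : E n → ℝ, χ = (φ.normed volume ⋆[ContinuousLinearMap.lsmul ℝ ℝ, volume]
    f0 Γ s) := ⟨_, rfl⟩
  have hev : ∀ x, χ x = ∫ t, φ.normed volume t * f0 Γ s (x - t) := by
    intro x
    rw [hχ]
    rfl
  have hcd : ContDiff ℝ 1 χ := by
    rw [hχ]
    exact φ.hasCompactSupport_normed.contDiff_convolution_left _ φ.contDiff_normed
      (f0_cont Γ s).locallyIntegrable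
  have hφi : Integrable (φ.normed volume) := φ.integrable_normed
  have hint : ∀ x, Integrable (fun t => φ.normed volume t * f0 Γ s (x - t)) := by
    intro x
    refine Integrable.mono' hφi ?_ (Filter.Eventually.of_forall fun t => ?_)
    · exact (φ.continuous_normed.mul ((f0_cont Γ s).comp
        (continuous_const.sub continuous_id))).aestronglyMeasurable
    · rw [norm_mul, Real.norm_of_nonneg (φ.nonneg_normed t), Real.norm_of_nonneg (f0_nonneg _ _ _)]
      exact mul_le_of_le_one_right (φ.nonneg_normed t) (f0_le _ _ _)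
  have hone : ∀ x, infDist x Γ ≤ s → χ x = 1 := by
    intro x hx
    have h1 : ∀ y ∈ ball x φ.rOut, f0 Γ s y = 1 := by
      intro y hy
      rw [hφ, mem_ball] at hy
      refine f0_one Γ hs ?_
      have := infDist_le_infDist_add_dist (s := Γ) (x := y) (y := x)
      linarith
    have h2 : ∀ y ∈ ball x φ.rOut, f0 Γ s y = f0 Γ s x := fun y hy => by
      rw [h1 y hy, h1 x (mem_ball_self φ.rOut_pos)]
    rw [hχ, φ.normed_convolution_eq_right h2, h1 x (mem_ball_self φ.rOut_pos)]
  have hzero : ∀ x, 2 * s ≤ infDist x Γ → χ x = 0 := by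
    intro x hx
    have h1 : ∀ y ∈ ball x φ.rOut, f0 Γ s y = 0 := by
      intro y hy
      rw [hφ, mem_ball, dist_comm] at hy
      refine f0_zero Γ hs ?_
      have := infDist_le_infDist_add_dist (s := Γ) (x := x) (y := y)
      linarith
    have h2 : ∀ y ∈ ball x φ.rOut, f0 Γ s y = f0 Γ s x := fun y hy => by
      rw [h1 y hy, h1 x (mem_ball_self φ.rOut_pos)]
    rw [hχ, φ.normed_convolution_eq_right h2, h1 x (mem_ball_self φ.rOut_pos)]
  have hlip : ∀ x y, |χ x - χ y| ≤ 2 / s * ‖x - y‖ := by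
    intro x y
    rw [hev, hev, ← integral_sub (hint x) (hint y)]
    have h1 := norm_integral_le_of_norm_le (hφi.mul_const (2 / s * ‖x - y‖))
      (f := fun t => φ.normed volume t * f0 Γ s (x - t) - φ.normed volume t * f0 Γ s (y - t))
      (Filter.Eventually.of_forall fun t => by
        rw [← mul_sub, norm_mul, Real.norm_of_nonneg (φ.nonneg_normed t), Real.norm_eq_abs]
        refine mul_le_mul_of_nonneg_left ?_ (φ.nonneg_normed t)
        have h2 := f0_lip Γ hs (x - t) (y - t)
        rwa [sub_sub_sub_cancel_right] at h2)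
    rw [integral_mul_const, φ.integral_normed, one_mul, Real.norm_eq_abs] at h1
    exact h1
  refine ⟨χ, hcd, ?_, fun x => ⟨?_, ?_⟩, hone, hzero, fun x => ?_⟩
  · refine HasCompactSupport.intro (hΓ.cthickening (r := 2 * s)) fun x hx => hzero x ?_
    by_contra hcon
    push Not at hcon
    apply hx
    rw [mem_cthickening_iff]
    have h1 : infEDist x Γ ≠ ⊤ := infEDist_ne_top hΓn
    rw [ENNReal.le_ofReal_iff_toReal_le h1 (by positivity)]
    exact hcon.le
  · rw [hev]
    exact integral_nonneg fun t => mul_nonneg (φ.nonneg_normed t) (f0_nonneg _ _ _)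
  · rw [hev, ← φ.integral_normed (μ := volume)]
    refine integral_mono (hint x) hφi fun t => ?_
    exact mul_le_of_le_one_right (φ.nonneg_normed t) (f0_le _ _ _)
  · have hK : LipschitzWith (Real.toNNReal (2 / s)) χ := by
      refine LipschitzWith.of_dist_le_mul fun x y => ?_
      rw [Real.dist_eq, dist_eq_norm, Real.coe_toNNReal _ (by positivity)]
      exact hlip x y
    have h1 : ‖fderiv ℝ χ x‖ ≤ 2 / s := by
      have := norm_fderiv_le_of_lipschitz ℝ hK (x₀ := x)
      rwa [Real.coe_toNNReal _ (by positivity)] at this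
    have h2 : ∀ i, |fderiv ℝ χ x (e i)| ≤ 2 / s := by
      intro i
      have h3 := (fderiv ℝ χ x).le_opNorm (e i)
      have h4 : ‖(e i : E n)‖ = 1 := by simp
      rw [h4, mul_one, Real.norm_eq_abs] at h3
      exact h3.trans h1
    unfold gr
    rw [EuclideanSpace.norm_eq]
    apply Real.sqrt_le_iff.2
    refine ⟨by positivity, ?_⟩
    have h5 : ∑ i : Fin n, ‖(WithLp.toLp 2 (fun i => fderiv ℝ χ x (e i)) : E n) i‖ ^ 2 ≤
        ∑ _i : Fin n, (2 / s) ^ 2 := by
      refine Finset.sum_le_sum fun i _ => ?_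
      refine pow_le_pow_left₀ (norm_nonneg _) ?_ 2
      exact h2 i
    refine h5.trans ?_
    rw [Finset.sum_const, Finset.card_univ, Fintype.card_fin, nsmul_eq_mul]
    have h6 : (2 * ((n : ℝ) + 1) / s) ^ 2 = ((n : ℝ) + 1) ^ 2 * (2 / s) ^ 2 := by
      field_simp
    rw [h6]
    refine mul_le_mul_of_nonneg_right ?_ (by positivity)
    nlinarith [Nat.cast_nonneg (α := ℝ) n]

end Pool.Agent.N169.TI
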